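import Pool.Agent.H986.CJC.Gen

set_option autoImplicit false

/-!
# A triangle-free graph whose independence complex is a canonical join complex is 3-colourable
-/

namespace Pool.Agent.H986.CJC

variable {L : Type*} [Lattice L] [BoundedOrder L] [Finite L]

open Classical in
/-- Let the canonical join complex of a finite semidistributive lattice have, as its pairs,
exactly the non-adjacent pairs of a triangle-free graph. Then the graph is 3-colourable. -/
theorem three_colour (hSD : SemiDist L) {V : Type*} (Adj : V → V → Prop)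
    (htri : ∀ u v w, Adj u v → Adj v w → Adj u w → False)
    (g : V → L) (hg : Function.Injective g) (hJ : ∀ v, SupIrred (g v))
    (hsurj : ∀ z : L, SupIrred z → ∃ v, g v = z)
    (hface : ∀ u v, u ≠ v → (IsFace ({g u, g v} : Finset L) ↔ ¬ Adj u v)) :
    ∃ c : V → Fin 3, ∀ u v, u ≠ v → Adj u v → c u ≠ c v := by
  choose K hK using fun v => exists_K hSD (hJ v)
  have hR : ∀ u v, R (g u) (g v) ↔ ¬ g u ≤ K v := fun u v => R_iff (hK v)
  have hadj : ∀ u v, u ≠ v → R (g u) (g v) → Adj u v := by
    intro u v huv h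
    by_contra hcon
    have h1 := (hface u v huv).2 hcon
    exact ((face_pair_iff hSD (hJ u) (hJ v) (hg.ne huv)).1 h1).1 h
  have hadj' : ∀ u v, u ≠ v → Adj u v → R (g u) (g v) ∨ R (g v) (g u) := by
    intro u v huv h
    by_contra hcon
    push Not at hcon
    exact (hface u v huv).1 ((face_pair_iff hSD (hJ u) (hJ v) (hg.ne huv)).2 hcon) h
  -- factorization
  have hfac : ∀ u v, u ≠ v → R (g u) (g v) → g v ≤ g u ∨ K v ≤ K u := by
    intro u v huv h
    obtain ⟨z, hz, hz1, hz2⟩ := factor (hK v) ((hR u v).1 h)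
    obtain ⟨w, rfl⟩ := hsurj z hz
    have hKw : K v ≤ K w := hz2 _ (hK w)
    by_cases hwu : w = u
    · right; rw [hwu] at hKw; exact hKw
    by_cases hwv : w = v
    · left; rw [hwv] at hz1; exact hz1
    exfalso
    have h1 : R (g u) (g w) := by
      obtain ⟨s, hs⟩ := exists_LC (hJ w)
      exact ⟨s, hs, hz1.trans le_sup_left⟩
    have h2 : R (g w) (g v) := by
      rw [hR]
      intro h3
      obtain ⟨s, -, -, h4, -⟩ := hK w
      exact h4 (h3.trans hKw)
    exact htri u w v (hadj u w (Ne.symm hwu) h1) (hadj w v hwv h2) (hadj u v huv h)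
  have hself : ∀ v, ¬ g v ≤ K v := fun v => by
    obtain ⟨s, -, -, h4, -⟩ := hK v
    exact h4
  have hbelow : ∀ u v, g u < g v → g u ≤ K v := fun u v h => by
    obtain ⟨s, hs, h1, -, -⟩ := hK v
    exact (hs.2 _ h).trans h1
  have hno2 : ∀ u v, u ≠ v → R (g u) (g v) → R (g v) (g u) → False := by
    intro u v huv h1 h2
    rcases hfac u v huv h1 with h3 | h3 <;> rcases hfac v u huv.symm h2 with h4 | h4
    · exact huv (hg (le_antisymm h4 h3))
    · have h5 : g v < g u := lt_of_le_of_ne h3 (hg.ne huv.symm)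
      exact hself v ((hbelow v u h5).trans h4)
    · have h5 : g u < g v := lt_of_le_of_ne h4 (hg.ne huv)
      exact hself u ((hbelow u v h5).trans h3)
    · have h5 : K u = K v := le_antisymm h4 h3
      have h6 := hK u
      rw [h5] at h6
      exact huv (hg (K_inj hSD h6 (hK v)))
  have hst : ∀ u v, u ≠ v → R (g u) (g v) →
      (∀ a, a ≠ u → ¬ R (g a) (g u)) ∨ (∀ b, b ≠ v → ¬ R (g v) (g b)) := by
    intro u v huv h
    rcases hfac u v huv h with h1 | h1
    · right
      intro b hb h2
      have h3 : R (g u) (g b) := by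
        obtain ⟨s, hs, h4⟩ := h2
        exact ⟨s, hs, h4.trans (sup_le_sup_right h1 s)⟩
      have hbu : b ≠ u := by
        rintro rfl
        exact hno2 b v huv h h2
      exact htri u v b (hadj u v huv h) (hadj v b hb.symm h2) (hadj u b hbu.symm h3)
    · left
      intro a ha h2
      have h3 : R (g a) (g v) := by
        rw [hR] at h2 ⊢
        exact fun h4 => h2 (h4.trans h1)
      have hav : a ≠ v := by
        rintro rfl
        exact hno2 u a huv h h2
      exact htri a u v (hadj a u ha h2) (hadj u v huv h) (hadj a v hav h3)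
  refine ⟨fun v => if (∀ a, a ≠ v → ¬ R (g a) (g v)) then 0
    else if (∀ b, b ≠ v → ¬ R (g v) (g b)) then 1 else 2, ?_⟩
  have key : ∀ u v, u ≠ v → R (g u) (g v) →
      (if (∀ a, a ≠ u → ¬ R (g a) (g u)) then (0 : Fin 3)
        else if (∀ b, b ≠ u → ¬ R (g u) (g b)) then 1 else 2) ≠
      (if (∀ a, a ≠ v → ¬ R (g a) (g v)) then (0 : Fin 3)
        else if (∀ b, b ≠ v → ¬ R (g v) (g b)) then 1 else 2) := by
    intro u v huv h
    have hv : ¬ (∀ a, a ≠ v → ¬ R (g a) (g v)) := fun h1 => h1 u huv h
    have hu : ¬ (∀ b, b ≠ u → ¬ R (g u) (g b)) := fun h1 => h1 v huv.symm h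
    rw [if_neg hv]
    by_cases h1 : (∀ a, a ≠ u → ¬ R (g a) (g u))
    · rw [if_pos h1]
      split_ifs <;> decide
    · rw [if_neg h1, if_neg hu]
      have h2 := (hst u v huv h).resolve_left h1
      rw [if_pos h2]
      decide
  intro u v huv h
  rcases hadj' u v huv h with h1 | h1
  · exact key u v huv h1
  · exact (key v u huv.symm h1).symm

end Pool.Agent.H986.CJC
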