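import Mathlib

set_option autoImplicit false

/-!
# Canonical join representations in finite semidistributive lattices

General lemmas about the relation `R x y : y ≤ x ⊔ y_*` on join-irreducible elements.
-/

namespace Pool.Agent.H986.CJC

/-- Both semidistributive laws. -/
def SemiDist (L : Type*) [Lattice L] : Prop :=
  (∀ x y z : L, x ⊔ y = x ⊔ z → x ⊔ (y ⊓ z) = x ⊔ y) ∧
  (∀ x y z : L, x ⊓ y = x ⊓ z → x ⊓ (y ⊔ z) = x ⊓ y)

/-- `A` is the canonical join representation of `w`: it is a join representation of `w`, it is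
irredundant, and it refines every join representation of `w`. -/
def IsCJR {L : Type*} [Lattice L] [BoundedOrder L] (w : L) (A : Finset L) : Prop :=
  A.sup id = w ∧ (∀ B : Finset L, B ⊂ A → B.sup id ≠ w) ∧
    ∀ B : Finset L, B.sup id = w → ∀ a ∈ A, ∃ b ∈ B, a ≤ b

/-- `A` is a face of the canonical join complex. -/
def IsFace {L : Type*} [Lattice L] [BoundedOrder L] (A : Finset L) : Prop :=
  ∃ w : L, IsCJR w A

section Gen

variable {L : Type*} [Lattice L] [BoundedOrder L]

/-- `s` is the unique lower cover of `j` (all elements below `j` are below `s`). -/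
def LC (s j : L) : Prop := s < j ∧ ∀ x, x < j → x ≤ s

theorem LC.unique {s t j : L} (h : LC s j) (h' : LC t j) : s = t :=
  le_antisymm (h'.2 s h.1) (h.2 t h'.1)

theorem exists_LC [Finite L] {j : L} (h : SupIrred j) : ∃ s, LC s j := by
  have hne : (Set.Iio j).Nonempty := by
    have h1 := h.1
    rw [isMin_iff_eq_bot] at h1
    exact ⟨⊥, bot_lt_iff_ne_bot.2 h1⟩
  obtain ⟨s, hs⟩ := (Set.toFinite (Set.Iio j)).exists_maximal hne
  refine ⟨s, hs.1, fun x hx => ?_⟩
  have h1 : s ⊔ x < j := by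
    refine lt_of_le_of_ne (sup_le (le_of_lt hs.1) hx.le) fun h2 => ?_
    rcases h.2 h2 with h3 | h3
    · exact absurd h3 (ne_of_lt hs.1)
    · exact absurd h3 hx.ne
  exact le_trans le_sup_right (hs.2 h1 le_sup_left)

/-- `k` is the largest element above the lower cover of `j` and not above `j`. -/
def IsK (k j : L) : Prop :=
  ∃ s, LC s j ∧ s ≤ k ∧ ¬ j ≤ k ∧ ∀ m, s ≤ m → ¬ j ≤ m → m ≤ k

theorem inf_eq_of {s j m : L} (h : LC s j) (h1 : s ≤ m) (h2 : ¬ j ≤ m) : j ⊓ m = s := by
  apply le_antisymm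
  · apply h.2
    exact lt_of_le_of_ne inf_le_left fun h3 => h2 (inf_eq_left.1 h3)
  · exact le_inf h.1.le h1

theorem exists_K [Finite L] (hSD : SemiDist L) {j : L} (h : SupIrred j) : ∃ k, IsK k j := by
  obtain ⟨s, hs⟩ := exists_LC h
  have hne : ({m : L | s ≤ m ∧ ¬ j ≤ m}).Nonempty := ⟨s, le_rfl, not_le_of_gt hs.1⟩
  obtain ⟨k, hk⟩ := (Set.toFinite {m : L | s ≤ m ∧ ¬ j ≤ m}).exists_maximal hne
  refine ⟨k, s, hs, hk.1.1, hk.1.2, fun m h1 h2 => ?_⟩
  have h3 : j ⊓ k = j ⊓ m := by rw [inf_eq_of hs hk.1.1 hk.1.2, inf_eq_of hs h1 h2]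
  have h4 := hSD.2 j k m h3
  have h5 : ¬ j ≤ k ⊔ m := by
    intro h6
    rw [inf_eq_left.2 h6, inf_eq_of hs hk.1.1 hk.1.2] at h4
    exact absurd h4.symm (ne_of_lt hs.1)
  exact le_trans le_sup_right (hk.2 (y := k ⊔ m) ⟨le_trans hk.1.1 le_sup_left, h5⟩ le_sup_left)

/-- The relation `x → y`. -/
def R (x y : L) : Prop := ∃ s, LC s y ∧ y ≤ x ⊔ s

theorem R_iff {x y k : L} (hk : IsK k y) : R x y ↔ ¬ x ≤ k := by
  obtain ⟨s, hs, h1, h2, h3⟩ := hk
  constructor
  · rintro ⟨t, ht, h4⟩ h5
    rw [LC.unique ht hs] at h4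
    exact h2 (h4.trans (sup_le h5 h1))
  · intro h4
    refine ⟨s, hs, ?_⟩
    by_contra h5
    exact h4 (le_trans le_sup_left (h3 (x ⊔ s) le_sup_right h5))

theorem factor [Finite L] {x y k : L} (hk : IsK k y) (h : ¬ x ≤ k) :
    ∃ z, SupIrred z ∧ z ≤ x ∧ ∀ kz, IsK kz z → k ≤ kz := by
  have hne : ({z : L | z ≤ x ∧ ¬ z ≤ k}).Nonempty := ⟨x, le_rfl, h⟩
  obtain ⟨z, hz⟩ := (Set.toFinite {z : L | z ≤ x ∧ ¬ z ≤ k}).exists_minimal hne
  have hlt : ∀ b, b < z → b ≤ k := by
    intro b hb
    by_contra h1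
    exact not_le_of_gt hb (hz.2 (y := b) ⟨hb.le.trans hz.1.1, h1⟩ hb.le)
  refine ⟨z, ⟨?_, ?_⟩, hz.1.1, ?_⟩
  · rw [isMin_iff_eq_bot]
    intro h1
    apply hz.1.2
    rw [h1]
    exact bot_le
  · intro b c hbc
    by_contra hcon
    push Not at hcon
    have hb : b < z := lt_of_le_of_ne (hbc ▸ le_sup_left) hcon.1
    have hc : c < z := lt_of_le_of_ne (hbc ▸ le_sup_right) hcon.2
    apply hz.1.2
    rw [← hbc]
    exact sup_le (hlt b hb) (hlt c hc)
  · rintro kz ⟨s, hs, -, -, h3⟩
    exact h3 k (hlt s hs.1) hz.1.2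

/-- `κ` is injective. -/
theorem K_inj (hSD : SemiDist L) {x y k : L} (hx : IsK k x) (hy : IsK k y) : x = y := by
  obtain ⟨s, hs, h1, h2, h3⟩ := hx
  obtain ⟨t, ht, h4, h5, h6⟩ := hy
  have hxk : k < k ⊔ x := lt_of_le_of_ne le_sup_left fun h => h2 (by rw [h]; exact le_sup_right)
  have hyk : k < k ⊔ y := lt_of_le_of_ne le_sup_left fun h => h5 (by rw [h]; exact le_sup_right)
  have e1 : y ≤ k ⊔ x := by
    by_contra h
    exact not_le_of_gt hxk (h6 _ (h4.trans hxk.le) h)
  have e2 : x ≤ k ⊔ y := by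
    by_contra h
    exact not_le_of_gt hyk (h3 _ (h1.trans hyk.le) h)
  have e3 : k ⊔ x = k ⊔ y := le_antisymm (sup_le le_sup_left e2) (sup_le le_sup_left e1)
  have e4 := hSD.1 k x y e3
  by_contra hne
  have e5 : x ⊓ y ≤ k := by
    rcases lt_or_eq_of_le (inf_le_left : x ⊓ y ≤ x) with h | h
    · exact (hs.2 _ h).trans h1
    · have h7 : x ≤ y := inf_eq_left.1 h
      have h8 : x < y := lt_of_le_of_ne h7 hne
      exact inf_le_left.trans ((ht.2 _ h8).trans h4)
  rw [sup_eq_left.2 e5] at e4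
  exact absurd e4 (ne_of_lt hxk)

theorem JS (hSD : SemiDist L) (x w : L) (B : Finset L) :
    ∀ s : L, s ⊔ x = w → s ⊔ B.sup id = w → s ⊔ B.sup (fun b => x ⊓ b) = w := by
  classical
  induction B using Finset.induction_on with
  | empty => intro s h1 h2; simpa using h2
  | insert b B hb ih =>
    intro s h1 h2
    rw [Finset.sup_insert] at h2 ⊢
    simp only [id] at h2
    have hbw : b ≤ w := by rw [← h2]; exact le_trans le_sup_left le_sup_right
    have h3 : (s ⊔ b) ⊔ x = w := by
      rw [sup_right_comm, h1]; exact sup_eq_left.2 hbw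
    have h4 := ih (s ⊔ b) h3 (by rw [sup_assoc]; exact h2)
    have h5 : (s ⊔ B.sup (fun b => x ⊓ b)) ⊔ b = w := by rw [sup_right_comm]; exact h4
    have h6 : (s ⊔ B.sup (fun b => x ⊓ b)) ⊔ x = w := by
      rw [sup_right_comm, h1]
      refine sup_eq_left.2 (Finset.sup_le fun c _ => ?_)
      exact inf_le_left.trans (by rw [← h1]; exact le_sup_right)
    have h7 := hSD.1 _ _ _ (h6.trans h5.symm)
    rw [← sup_assoc, sup_right_comm, h7, h6]

open Classical in
theorem not_R_of_face {x y : L} (hxy : x ≠ y) (h : IsFace ({x, y} : Finset L)) : ¬ R x y := by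
  rintro ⟨s, hs, h1⟩
  obtain ⟨w, h2, h3, h4⟩ := h
  have hw : x ⊔ y = w := by simpa using h2
  have h5 : ({x, s} : Finset L).sup id = w := by
    simp only [Finset.sup_insert, Finset.sup_singleton, id]
    rw [← hw]
    exact le_antisymm (sup_le_sup_left hs.1.le x) (sup_le le_sup_left h1)
  obtain ⟨b, hb, h6⟩ := h4 _ h5 y (by simp)
  simp only [Finset.mem_insert, Finset.mem_singleton] at hb
  rcases hb with rfl | rfl
  · refine h3 {b} ?_ ?_
    · refine Finset.ssubset_iff_subset_ne.2 ⟨by simp, fun h => ?_⟩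
      have : y ∈ ({b} : Finset L) := by rw [h]; simp
      exact hxy (Finset.mem_singleton.1 this).symm
    · simp only [Finset.sup_singleton, id]
      rw [← hw]; exact (sup_eq_left.2 h6).symm
  · exact not_le_of_gt hs.1 h6

open Classical in
theorem face_of_not_R [Finite L] (hSD : SemiDist L) {x y : L} (hx : SupIrred x) (hy : SupIrred y)
    (h1 : ¬ R x y) (h2 : ¬ R y x) : IsFace ({x, y} : Finset L) := by
  obtain ⟨kx, hkx⟩ := exists_K hSD hx
  obtain ⟨ky, hky⟩ := exists_K hSD hy
  rw [R_iff hky, not_not] at h1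
  rw [R_iff hkx, not_not] at h2
  obtain ⟨s, hs, a1, a2, a3⟩ := hkx
  obtain ⟨t, ht, b1, b2, b3⟩ := hky
  refine ⟨x ⊔ y, by simp, ?_, ?_⟩
  · intro B hB hBs
    obtain ⟨hsub, hne⟩ := Finset.ssubset_iff_subset_ne.1 hB
    by_cases hxB : x ∈ B
    · have hyB : y ∉ B := by
        intro hyB
        apply hne
        refine Finset.Subset.antisymm hsub ?_
        intro z hz
        simp only [Finset.mem_insert, Finset.mem_singleton] at hz
        rcases hz with rfl | rfl <;> assumption
      have h3 : B.sup id ≤ ky := by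
        refine Finset.sup_le fun z hz => ?_
        have h4 := hsub hz
        simp only [Finset.mem_insert, Finset.mem_singleton] at h4
        rcases h4 with rfl | rfl
        · exact h1
        · exact absurd hz hyB
      exact b2 (le_trans le_sup_right (hBs ▸ h3))
    · have h3 : B.sup id ≤ kx := by
        refine Finset.sup_le fun z hz => ?_
        have h4 := hsub hz
        simp only [Finset.mem_insert, Finset.mem_singleton] at h4
        rcases h4 with rfl | rfl
        · exact absurd hz hxB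
        · exact h2
      exact a2 (le_trans le_sup_left (hBs ▸ h3))
  · intro B hB a ha
    simp only [Finset.mem_insert, Finset.mem_singleton] at ha
    rcases ha with rfl | rfl
    · by_contra hcon
      push Not at hcon
      have h3 := JS hSD a (a ⊔ y) B y (sup_comm _ _) (by rw [hB]; exact sup_eq_right.2 le_sup_right)
      apply a2
      refine le_trans (le_sup_left : a ≤ a ⊔ y) ?_
      rw [← h3]
      refine sup_le h2 (Finset.sup_le fun b hb => ?_)
      refine le_trans (hs.2 _ ?_) a1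
      exact lt_of_le_of_ne inf_le_left fun h => hcon b hb (inf_eq_left.1 h)
    · by_contra hcon
      push Not at hcon
      have h3 := JS hSD a (x ⊔ a) B x rfl (by rw [hB]; exact sup_eq_right.2 le_sup_left)
      apply b2
      refine le_trans (le_sup_right : a ≤ x ⊔ a) ?_
      rw [← h3]
      refine sup_le h1 (Finset.sup_le fun b hb => ?_)
      refine le_trans (ht.2 _ ?_) b1
      exact lt_of_le_of_ne inf_le_left fun h => hcon b hb (inf_eq_left.1 h)

open Classical in
theorem face_pair_iff [Finite L] (hSD : SemiDist L) {x y : L} (hx : SupIrred x) (hy : SupIrred y)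
    (hxy : x ≠ y) : IsFace ({x, y} : Finset L) ↔ ¬ R x y ∧ ¬ R y x := by
  constructor
  · intro h
    exact ⟨not_R_of_face hxy h, not_R_of_face hxy.symm (by rwa [Finset.pair_comm])⟩
  · rintro ⟨h1, h2⟩
    exact face_of_not_R hSD hx hy h1 h2

end Gen

end Pool.Agent.H986.CJC
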