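import Pool.Agent.H986.CJC.Gen

set_option autoImplicit false

/-!
# Concept lattices of acyclic factorization systems

`T` is a reflexive antisymmetric relation on a finite type such that every `T x y` factors as
`x ↠ z ↪ y`. The concept lattice of `¬ T` is semidistributive, and its join-irreducible elements
`j v` satisfy `R (j u) (j v) ↔ T u v`.
-/

namespace Pool.Agent.H986.CJC

section Con

variable {α : Type} [Finite α] (T : α → α → Prop)

/-- The lattice. -/
abbrev Lat : Type := Concept α α (fun a b => ¬ T a b)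

/-- factorization -/
def Fact : Prop := ∀ x y, T x y → ∃ z, (∀ t, T z t → T x t) ∧ (∀ t, T t z → T t y)

instance : Finite (Lat T) := Finite.of_injective _ Concept.extent_injective

variable {T}

theorem mem_int (X : Lat T) (b : α) : b ∈ X.intent ↔ ∀ a ∈ X.extent, ¬ T a b := by
  rw [← X.upperPolar_extent]
  exact Iff.rfl

theorem mem_ext (X : Lat T) (a : α) : a ∈ X.extent ↔ ∀ b ∈ X.intent, ¬ T a b := by
  rw [← X.lowerPolar_intent]
  exact Iff.rfl

theorem join_sd (hr : ∀ a, T a a) (ha : ∀ a b, T a b → T b a → a = b) (hF : Fact T)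
    (X Y Z : Lat T) (h : X ⊔ Y = X ⊔ Z) : X ⊔ (Y ⊓ Z) = X ⊔ Y := by
  have hi : ∀ b, b ∈ X.intent → (b ∈ Y.intent ↔ b ∈ Z.intent) := by
    intro b hb
    have h1 : (X ⊔ Y).intent = (X ⊔ Z).intent := by rw [h]
    rw [Concept.intent_sup, Concept.intent_sup] at h1
    have h2 := Set.ext_iff.1 h1 b
    simp only [Set.mem_inter_iff] at h2
    tauto
  -- one step
  have step : ∀ (P : Lat T) (z0 : α), z0 ∈ X.intent → z0 ∉ P.intent →
      ∃ z1 ∈ P.extent, z1 ∈ X.intent ∧ ∀ t, T t z1 → T t z0 := by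
    intro P z0 h1 h2
    rw [mem_int] at h2
    push Not at h2
    obtain ⟨a, ha1, ha2⟩ := h2
    obtain ⟨z, hz1, hz2⟩ := hF a z0 ha2
    refine ⟨z, ?_, ?_, hz2⟩
    · rw [mem_ext] at ha1 ⊢
      exact fun b hb hzb => ha1 b hb (hz1 b hzb)
    · rw [mem_int] at h1 ⊢
      exact fun b hb hbz => h1 b hb (hz2 b hbz)
  apply Concept.ext'
  rw [Concept.intent_sup, Concept.intent_sup]
  apply Set.Subset.antisymm
  · rintro b ⟨hb1, hb2⟩
    refine ⟨hb1, ?_⟩
    by_contra hb3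
    -- minimal element
    let S : Set α := {z | z ∈ X.intent ∧ z ∉ Y.intent ∧ ∀ t, T t z → T t b}
    have hbS : b ∈ S := ⟨hb1, hb3, fun t ht => ht⟩
    obtain ⟨z0, hz0, hmin⟩ := (Set.toFinite S).exists_minimalFor
      (fun z => {t | T t z}) S ⟨b, hbS⟩
    have hpt : ∀ z, z ∈ S → (∀ t, T t z → T t z0) → z = z0 := by
      intro z hz hzz
      have h1 := hmin hz hzz
      have h2 : T z0 z := h1 (hr z0)
      exact ha z z0 (hzz z (hr z)) h2
    obtain ⟨h1, h2, h3⟩ := hz0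
    have hY : z0 ∈ Y.extent := by
      obtain ⟨z1, e1, e2, e3⟩ := step Y z0 h1 h2
      have h4 : z1 ∈ S := ⟨e2, fun h5 => (mem_int Y z1).1 h5 z1 e1 (hr z1),
        fun t ht => h3 t (e3 t ht)⟩
      rw [← hpt z1 h4 e3]; exact e1
    have hZ : z0 ∈ Z.extent := by
      obtain ⟨z1, e1, e2, e3⟩ := step Z z0 h1 (fun h5 => h2 ((hi z0 h1).2 h5))
      have h4 : z1 ∈ S := ⟨e2, fun h5 => (mem_int Z z1).1 ((hi z1 e2).1 h5) z1 e1 (hr z1),
        fun t ht => h3 t (e3 t ht)⟩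
      rw [← hpt z1 h4 e3]; exact e1
    have h5 : z0 ∈ (Y ⊓ Z).extent := by rw [Concept.extent_inf]; exact ⟨hY, hZ⟩
    exact (mem_int _ b).1 hb2 z0 h5 (h3 z0 (hr z0))
  · rintro b ⟨hb1, hb2⟩
    refine ⟨hb1, ?_⟩
    rw [mem_int] at hb2 ⊢
    intro a ha
    rw [Concept.extent_inf] at ha
    exact hb2 a ha.1

theorem meet_sd (hr : ∀ a, T a a) (ha : ∀ a b, T a b → T b a → a = b) (hF : Fact T)
    (X Y Z : Lat T) (h : X ⊓ Y = X ⊓ Z) : X ⊓ (Y ⊔ Z) = X ⊓ Y := by
  have hi : ∀ b, b ∈ X.extent → (b ∈ Y.extent ↔ b ∈ Z.extent) := by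
    intro b hb
    have h1 : (X ⊓ Y).extent = (X ⊓ Z).extent := by rw [h]
    rw [Concept.extent_inf, Concept.extent_inf] at h1
    have h2 := Set.ext_iff.1 h1 b
    simp only [Set.mem_inter_iff] at h2
    tauto
  have step : ∀ (P : Lat T) (z0 : α), z0 ∈ X.extent → z0 ∉ P.extent →
      ∃ z1 ∈ P.intent, z1 ∈ X.extent ∧ ∀ t, T z1 t → T z0 t := by
    intro P z0 h1 h2
    rw [mem_ext] at h2
    push Not at h2
    obtain ⟨a, ha1, ha2⟩ := h2
    obtain ⟨z, hz1, hz2⟩ := hF z0 a ha2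
    refine ⟨z, ?_, ?_, hz1⟩
    · rw [mem_int] at ha1 ⊢
      exact fun b hb hzb => ha1 b hb (hz2 b hzb)
    · rw [mem_ext] at h1 ⊢
      exact fun b hb hbz => h1 b hb (hz1 b hbz)
  apply Concept.ext
  rw [Concept.extent_inf, Concept.extent_inf]
  apply Set.Subset.antisymm
  · rintro b ⟨hb1, hb2⟩
    refine ⟨hb1, ?_⟩
    by_contra hb3
    let S : Set α := {z | z ∈ X.extent ∧ z ∉ Y.extent ∧ ∀ t, T z t → T b t}
    have hbS : b ∈ S := ⟨hb1, hb3, fun t ht => ht⟩
    obtain ⟨z0, hz0, hmin⟩ := (Set.toFinite S).exists_minimalFor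
      (fun z => {t | T z t}) S ⟨b, hbS⟩
    have hpt : ∀ z, z ∈ S → (∀ t, T z t → T z0 t) → z = z0 := by
      intro z hz hzz
      have h1 := hmin hz hzz
      have h2 : T z z0 := h1 (hr z0)
      exact ha z z0 h2 (hzz z (hr z))
    obtain ⟨h1, h2, h3⟩ := hz0
    have hY : z0 ∈ Y.intent := by
      obtain ⟨z1, e1, e2, e3⟩ := step Y z0 h1 h2
      have h4 : z1 ∈ S := ⟨e2, fun h5 => (mem_ext Y z1).1 h5 z1 e1 (hr z1),
        fun t ht => h3 t (e3 t ht)⟩
      rw [← hpt z1 h4 e3]; exact e1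
    have hZ : z0 ∈ Z.intent := by
      obtain ⟨z1, e1, e2, e3⟩ := step Z z0 h1 (fun h5 => h2 ((hi z0 h1).2 h5))
      have h4 : z1 ∈ S := ⟨e2, fun h5 => (mem_ext Z z1).1 ((hi z1 e2).1 h5) z1 e1 (hr z1),
        fun t ht => h3 t (e3 t ht)⟩
      rw [← hpt z1 h4 e3]; exact e1
    have h5 : z0 ∈ (Y ⊔ Z).intent := by rw [Concept.intent_sup]; exact ⟨hY, hZ⟩
    exact (mem_ext _ b).1 hb2 z0 h5 (h3 z0 (hr z0))
  · rintro b ⟨hb1, hb2⟩
    refine ⟨hb1, ?_⟩
    rw [mem_ext] at hb2 ⊢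
    intro a ha
    rw [Concept.intent_sup] at ha
    exact hb2 a ha.1

variable (T) in
/-- The join-irreducible element attached to `v`. -/
def jj (v : α) : Lat T := Concept.ofObject _ v

theorem mem_jj_int (v b : α) : b ∈ (jj T v).intent ↔ ¬ T v b := by
  unfold jj
  simp [Concept.ofObjects, Concept.ofIsIntent, upperPolar]

theorem mem_jj_ext (v a : α) : a ∈ (jj T v).extent ↔ ∀ t, T a t → T v t := by
  rw [mem_ext]
  constructor
  · intro h t h1
    by_contra h2
    exact h t ((mem_jj_int v t).2 h2) h1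
  · intro h b hb h1
    exact (mem_jj_int v b).1 hb (h b h1)

theorem le_iff {X Y : Lat T} : X ≤ Y ↔ ∀ a, a ∈ X.extent → a ∈ Y.extent :=
  Concept.extent_subset_extent_iff.symm

theorem le_iff' {X Y : Lat T} : X ≤ Y ↔ ∀ a, a ∈ Y.intent → a ∈ X.intent :=
  Concept.intent_subset_intent_iff.symm

theorem exists_s (hr : ∀ a, T a a) (ha : ∀ a b, T a b → T b a → a = b) (v : α) :
    ∃ s : Lat T, LC s (jj T v) ∧ v ∈ s.intent ∧
      ∀ a, (∀ t, T a t → T v t) → a ≠ v → a ∈ s.extent := by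
  let E : Set α := {a | (∀ t, T a t → T v t) ∧ a ≠ v}
  let s : Lat T := Concept.ofObjects _ E
  have hvint : v ∈ s.intent := by
    show v ∈ upperPolar _ E
    intro a hE hav
    exact hE.2 (ha a v hav (hE.1 a (hr a)))
  have hEs : ∀ a, (∀ t, T a t → T v t) → a ≠ v → a ∈ s.extent := by
    intro a h1 h2
    show a ∈ lowerPolar _ (upperPolar _ E)
    intro b hb
    exact hb ⟨h1, h2⟩
  have hsv : v ∉ s.extent := fun h => (mem_ext s v).1 h v hvint (hr v)
  have hsle : s ≤ jj T v := by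
    rw [le_iff']
    intro b hb
    show b ∈ upperPolar _ E
    intro a hE hab
    exact (mem_jj_int v b).1 hb (hE.1 b hab)
  refine ⟨s, ⟨lt_of_le_of_ne hsle ?_, ?_⟩, hvint, hEs⟩
  · intro h
    apply hsv
    rw [h, mem_jj_ext]
    exact fun t ht => ht
  · intro X hX
    have hvX : v ∉ X.extent := by
      intro h
      apply not_le_of_gt hX
      rw [le_iff]
      intro a h1
      rw [mem_jj_ext] at h1
      rw [mem_ext] at h ⊢
      exact fun b hb hab => h b hb (h1 b hab)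
    rw [le_iff]
    intro a h1
    have h2 := (le_iff.1 hX.le) a h1
    rw [mem_jj_ext] at h2
    refine hEs a h2 ?_
    rintro rfl
    exact hvX h1

theorem jj_irred (hr : ∀ a, T a a) (ha : ∀ a b, T a b → T b a → a = b) (v : α) :
    SupIrred (jj T v) := by
  obtain ⟨s, hs, -, -⟩ := exists_s hr ha v
  refine ⟨fun h => not_le_of_gt hs.1 (h hs.1.le), fun b c hbc => ?_⟩
  by_contra hcon
  push Not at hcon
  have hb : b < jj T v := lt_of_le_of_ne (hbc ▸ le_sup_left) hcon.1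
  have hc : c < jj T v := lt_of_le_of_ne (hbc ▸ le_sup_right) hcon.2
  have h1 : b ⊔ c ≤ s := sup_le (hs.2 b hb) (hs.2 c hc)
  rw [hbc] at h1
  exact not_le_of_gt hs.1 h1

theorem R_jj (hr : ∀ a, T a a) (ha : ∀ a b, T a b → T b a → a = b) (hF : Fact T) (u v : α) :
    R (jj T u) (jj T v) ↔ T u v := by
  obtain ⟨s, hs, hv, hE⟩ := exists_s hr ha v
  constructor
  · rintro ⟨t, ht, h1⟩
    rw [LC.unique ht hs] at h1
    by_contra hT
    have h2 : v ∈ (jj T u ⊔ s).intent := by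
      rw [Concept.intent_sup]
      exact ⟨(mem_jj_int u v).2 hT, hv⟩
    exact (mem_jj_int v v).1 (le_iff'.1 h1 v h2) (hr v)
  · intro hT
    refine ⟨s, hs, ?_⟩
    rw [le_iff']
    intro b hb
    rw [Concept.intent_sup] at hb
    obtain ⟨hb1, hb2⟩ := hb
    rw [mem_jj_int] at hb1 ⊢
    intro hvb
    obtain ⟨z, hz1, hz2⟩ := hF v b hvb
    by_cases hzv : z = v
    · rw [hzv] at hz2
      exact hb1 (hz2 u hT)
    · exact (mem_int s b).1 hb2 z (hE z hz1 hzv) (hz2 z (hr z))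

theorem jj_inj (hr : ∀ a, T a a) (ha : ∀ a b, T a b → T b a → a = b) :
    Function.Injective (jj T) := by
  intro u v h
  have h1 : T v u := by
    have := (mem_jj_ext (T := T) v u).1 (by rw [← h, mem_jj_ext]; exact fun t ht => ht)
    exact this u (hr u)
  have h2 : T u v := by
    have := (mem_jj_ext (T := T) u v).1 (by rw [h, mem_jj_ext]; exact fun t ht => ht)
    exact this v (hr v)
  exact ha u v h2 h1

end Con

end Pool.Agent.H986.CJC
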